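import Pool.Agent.Helper19.Un.D4Stmts

set_option autoImplicit false

/-!
# The cusps of type 3
-/

namespace Pool.Agent.Helper19.Un

theorem t3_sq_nonneg (z : Fin 4 → ℝ) (b : Fin 4 → ℤ) : 0 ≤ sq z b :=
  Finset.sum_nonneg fun _ _ => sq_nonneg _

/-- a positive term -/
theorem t3_term {y r V : ℝ} (hy : 1 ≤ y) (hr : 0 ≤ r)
    (h : 0 < 6 / 5 - 3 * (3 * (r / 3 + y) ^ 2 + 4 * V ^ 2) / (16 * y)) :
    |V| < 1 ∧ 6 / 5 - 3 * (3 * (r / 3 + y) ^ 2 + 4 * V ^ 2) / (16 * y) ≤ 7 / 10 - 1 / 2 * r ∧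
      y < 11 / 5 := by
  have hy0 : 0 < 16 * y := by linarith
  have h1 : 3 * (3 * (r / 3 + y) ^ 2 + 4 * V ^ 2) < 6 / 5 * (16 * y) := by
    have : 3 * (3 * (r / 3 + y) ^ 2 + 4 * V ^ 2) / (16 * y) < 6 / 5 := by linarith
    rwa [div_lt_iff₀ hy0] at this
  have hV : 0 ≤ V ^ 2 := sq_nonneg _
  have hyr : 0 ≤ y * r := by positivity
  have hr2 : 0 ≤ r ^ 2 := sq_nonneg _
  have e : 3 * (3 * (r / 3 + y) ^ 2 + 4 * V ^ 2) = (r + 3 * y) ^ 2 + 12 * V ^ 2 := by ring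
  rw [e] at h1 ⊢
  refine ⟨?_, ?_, ?_⟩
  · have h2 : V ^ 2 < 1 := by nlinarith [sq_nonneg (y - 16 / 15)]
    exact (sq_lt_one_iff_abs_lt_one V).1 h2
  · have hr3 : r ≤ 3 := by
      by_contra hc
      push Not at hc
      nlinarith [sq_nonneg (r - 3 * y)]
    have h3 : (r + 3) ^ 2 / 16 ≤ ((r + 3 * y) ^ 2 + 12 * V ^ 2) / (16 * y) := by
      rw [div_le_div_iff₀ (by norm_num) hy0]
      have : 0 ≤ (y - 1) * (9 * y - r ^ 2) := by
        apply mul_nonneg (by linarith)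
        nlinarith
      nlinarith
    nlinarith [sq_nonneg (r - 1)]
  · nlinarith

theorem st_T3 (hG : ST_GRAM) : ST_T3 := by
  intro y z v hy G hG2
  classical
  set F : (Fin 4 → ℤ) × ℤ → ℝ := fun g =>
    6 / 5 - 3 * (3 * (sq z g.1 / 3 + y) ^ 2 + 4 * (v g.1 + 2 * g.2) ^ 2) / (16 * y) with hF
  change ∑ g ∈ G, max 0 (F g) ≤ _
  set P := G.filter (fun g => 0 < F g) with hP
  have h1 : ∑ g ∈ G, max 0 (F g) = ∑ g ∈ P, F g := by
    rw [hP, Finset.sum_filter]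
    refine Finset.sum_congr rfl fun g _ => ?_
    split_ifs with h
    · exact max_eq_right h.le
    · exact max_eq_left (not_lt.1 h)
  rw [h1]
  have ht : ∀ g ∈ P, |v g.1 + 2 * g.2| < 1 ∧ F g ≤ 7 / 10 - 1 / 2 * sq z g.1 ∧ y < 11 / 5 := by
    intro g hg
    exact t3_term hy (t3_sq_nonneg z g.1) (Finset.mem_filter.1 hg).2
  split_ifs with hc
  · have hinj : Set.InjOn (fun g : (Fin 4 → ℤ) × ℤ => g.1) P := by
      intro g hg g' hg' hgg
      have a1 := (ht g hg).1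
      have a2 := (ht g' hg').1
      have hgg1 : g.1 = g'.1 := hgg
      rw [hgg1, abs_lt] at a1
      rw [abs_lt] at a2
      have : g.2 = g'.2 := by
        have b1 : (g.2 : ℝ) - g'.2 < 1 := by linarith [a1.2, a2.1]
        have b2 : -1 < (g.2 : ℝ) - g'.2 := by linarith [a1.1, a2.2]
        have c1 : g.2 - g'.2 < 1 := by exact_mod_cast b1
        have c2 : -1 < g.2 - g'.2 := by exact_mod_cast b2
        omega
      exact Prod.ext hgg1 this
    calc ∑ g ∈ P, F g ≤ ∑ g ∈ P, (7 / 10 - 1 / 2 * sq z g.1) :=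
          Finset.sum_le_sum fun g hg => (ht g hg).2.1
      _ = ∑ b ∈ P.image (fun g => g.1), (7 / 10 - 1 / 2 * sq z b) := by
          rw [Finset.sum_image hinj]
      _ ≤ max (7 / 10) (max (4 * (7 / 10) - 3 * (1 / 2)) (8 * (7 / 10) - 8 * (1 / 2))) := by
          refine hG z _ ?_ _ _ (by norm_num) (by norm_num)
          intro b hb
          obtain ⟨g, hg, rfl⟩ := Finset.mem_image.1 hb
          exact hG2 g (Finset.mem_filter.1 hg).1
      _ ≤ 8 / 5 := by norm_num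
  · have hPe : P = ∅ := by
      rw [Finset.eq_empty_iff_forall_notMem]
      intro g hg
      exact hc (ht g hg).2.2
    rw [hPe, Finset.sum_empty]

end Pool.Agent.Helper19.Un
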