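import Pool.Agent.Helper19.Un.D4Stmts

set_option autoImplicit false

/-!
# Sums over the thin sublattice of `D₄`
-/

namespace Pool.Agent.Helper19.Un

theorem gram4_dist {b c : Fin 4 → ℤ} (hb : (∀ i, Even (b i)) ∨ ∀ i, Odd (b i))
    (hc : (∀ i, Even (c i)) ∨ ∀ i, Odd (c i)) (h : b ≠ c) :
    (4 : ℝ) ≤ ∑ i, ((b i : ℝ) - c i) ^ 2 := by
  have key : (4 : ℤ) ≤ ∑ i, (b i - c i) ^ 2 := by
    have hpar : (∀ i, Even (b i - c i)) ∨ ∀ i, Odd (b i - c i) := by
      rcases hb with hb | hb <;> rcases hc with hc | hc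
      · exact Or.inl fun i => (hb i).sub (hc i)
      · exact Or.inr fun i => (hb i).sub_odd (hc i)
      · exact Or.inr fun i => (hb i).sub_even (hc i)
      · exact Or.inl fun i => (hb i).sub_odd (hc i)
    rcases hpar with hp | hp
    · obtain ⟨i, hi⟩ := Function.ne_iff.1 h
      have h1 : (4 : ℤ) ≤ (b i - c i) ^ 2 := by
        obtain ⟨k, hk⟩ := hp i
        have hk0 : k ≠ 0 := by
          intro h0
          apply hi
          rw [h0] at hk
          omega
        have : 1 ≤ k ^ 2 := by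
          have := sq_pos_of_ne_zero hk0
          omega
        rw [hk]; nlinarith
      exact h1.trans (Finset.single_le_sum (f := fun i => (b i - c i) ^ 2)
        (fun j _ => sq_nonneg _) (Finset.mem_univ i))
    · have h1 : ∀ i, (1 : ℤ) ≤ (b i - c i) ^ 2 := by
        intro i
        obtain ⟨k, hk⟩ := hp i
        have : b i - c i ≠ 0 := by omega
        have := sq_pos_of_ne_zero this
        omega
      rw [Fin.sum_univ_four]
      linarith [h1 0, h1 1, h1 2, h1 3]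
  exact_mod_cast key

theorem gram4_coord (S : Finset (Fin 4 → ℤ)) (f : (Fin 4 → ℤ) → ℝ) :
    ∑ b ∈ S, ∑ c ∈ S, (f b - f c) ^ 2 ≤ 2 * S.card * ∑ b ∈ S, f b ^ 2 := by
  have e : ∀ b ∈ S, ∑ c ∈ S, (f b - f c) ^ 2
      = S.card * f b ^ 2 + ∑ c ∈ S, f c ^ 2 - 2 * (f b * ∑ c ∈ S, f c) := by
    intro b _
    rw [Finset.mul_sum, Finset.mul_sum, ← nsmul_eq_mul, ← Finset.sum_const,
      ← Finset.sum_add_distrib, ← Finset.sum_sub_distrib]
    refine Finset.sum_congr rfl fun c _ => ?_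
    ring
  rw [Finset.sum_congr rfl e, Finset.sum_sub_distrib, Finset.sum_add_distrib,
    ← Finset.mul_sum, Finset.sum_const, nsmul_eq_mul, ← Finset.mul_sum, ← Finset.sum_mul]
  have : 0 ≤ (∑ c ∈ S, f c) * ∑ c ∈ S, f c := mul_self_nonneg _
  linarith

/-- the variance inequality -/
theorem gram4_var (z : Fin 4 → ℝ) (S : Finset (Fin 4 → ℤ)) :
    ∑ b ∈ S, ∑ c ∈ S, ∑ i, ((b i : ℝ) - c i) ^ 2 ≤ 2 * S.card * ∑ b ∈ S, sq z b := by
  have h1 : ∀ i : Fin 4, ∑ b ∈ S, ∑ c ∈ S, ((b i : ℝ) - c i) ^ 2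
      ≤ 2 * S.card * ∑ b ∈ S, (z i - b i) ^ 2 := by
    intro i
    have := gram4_coord S (fun b => (z i - b i))
    refine le_trans (le_of_eq ?_) this
    refine Finset.sum_congr rfl fun b _ => Finset.sum_congr rfl fun c _ => ?_
    ring
  unfold sq
  simp only [Fin.sum_univ_four, Finset.sum_add_distrib]
  have := h1 0
  have := h1 1
  have := h1 2
  have := h1 3
  linarith

theorem st_GRAM4 : ST_GRAM4 := by
  intro z S hS _ α l hα hl
  rcases S.eq_empty_or_nonempty with rfl | hne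
  · simpa using hα
  have hk : (1 : ℝ) ≤ S.card := by exact_mod_cast hne.card_pos
  have h1 := gram4_var z S
  have h2 : (4 : ℝ) * (S.card * (S.card - 1)) ≤ ∑ b ∈ S, ∑ c ∈ S, ∑ i, ((b i : ℝ) - c i) ^ 2 := by
    have h3 : ∀ b ∈ S, (4 : ℝ) * (S.card - 1) ≤ ∑ c ∈ S, ∑ i, ((b i : ℝ) - c i) ^ 2 := by
      intro b hb
      have h4 : ∑ c ∈ S.erase b, (4 : ℝ) ≤ ∑ c ∈ S.erase b, ∑ i, ((b i : ℝ) - c i) ^ 2 := by
        refine Finset.sum_le_sum fun c hc => ?_
        exact gram4_dist (hS b hb) (hS c (Finset.mem_of_mem_erase hc))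
          (Finset.ne_of_mem_erase hc).symm
      have h5 : ∑ c ∈ S.erase b, ∑ i, ((b i : ℝ) - c i) ^ 2
          ≤ ∑ c ∈ S, ∑ i, ((b i : ℝ) - c i) ^ 2 :=
        Finset.sum_le_sum_of_subset_of_nonneg (Finset.erase_subset _ _)
          fun _ _ _ => Finset.sum_nonneg fun _ _ => sq_nonneg _
      rw [Finset.sum_const, Finset.card_erase_of_mem hb, nsmul_eq_mul,
        Nat.cast_sub hne.card_pos] at h4
      push_cast at h4
      linarith
    have h6 := Finset.sum_le_sum h3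
    rw [Finset.sum_const, nsmul_eq_mul] at h6
    linarith
  have h7 : 2 * ((S.card : ℝ) - 1) ≤ ∑ b ∈ S, sq z b := by
    have h8 : (S.card : ℝ) * (4 * (S.card - 1)) ≤ S.card * (2 * ∑ b ∈ S, sq z b) := by
      linarith
    have h9 := le_of_mul_le_mul_left h8 (by linarith)
    linarith
  have hl0 : 0 ≤ l := by linarith
  rw [Finset.sum_sub_distrib, Finset.sum_const, ← Finset.mul_sum, nsmul_eq_mul]
  have h10 := mul_le_mul_of_nonneg_left h7 hl0
  nlinarith

end Pool.Agent.Helper19.Un
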